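import Pool.Agent.H95.GN.Dp

/-!
# The exceptional level `3 ∣ n`: the genera given by the ternary condition exist

`H = (b+2) L - b E_0 - E_1 - E_2`, `C = x L - y E_0 - m_1 E_1 - m_2 E_2`, `y = x - z`, on the
plane blown up in three points.
-/

namespace Pool.Agent.H82.GN

open Pool.Agent.H95.GN Finset

/-- the inequalities -/
theorem tern_ineq (b d g z w₁ w₂ C : ℤ) (hb : 1 ≤ b) (hC : 20 * (b + 1) ^ 2 ≤ C) (hd : C ≤ d)
    (hg : d ^ 2 + C * d ≤ 2 * (4 * b + 3) * g)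
    (hR : w₁ ^ 2 + w₂ ^ 2 = -(4 * b + 2) * z ^ 2 + 4 * (d + b - 1) * z - 4 * (2 * g - 2 + d)) :
    3 ≤ z ∧ |w₁| ≤ z ∧ |w₂| ≤ z ∧ (b + 1) * z ≤ d ∧ |w₁ + w₂| ≤ 2 * (d - (b + 1) * z) ∧
      2 ≤ g := by
  have hb2 : 0 ≤ (b - 1) * (b - 1) := mul_self_nonneg _
  have hC80 : 80 ≤ C := by linarith
  have hd80 : 80 ≤ d := hC80.trans hd
  have hCb : 20 * (b + 1) ≤ C := by linarith
  have hdb : 20 * (b + 1) ≤ d := hCb.trans hd
  have hCd : C * C ≤ C * d := mul_le_mul_of_nonneg_left hd (by linarith)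
  have hCd1 : 20 * (b + 1) ^ 2 * d ≤ C * d := mul_le_mul_of_nonneg_right hC (by linarith)
  have hdd : C * d ≤ d * d := mul_le_mul_of_nonneg_right hd (by linarith)
  set G2 : ℤ := 2 * g - 2 + d with hG2
  have hG : d ^ 2 + C * d + (4 * b + 3) * (d - 2) ≤ (4 * b + 3) * G2 := by
    rw [hG2]; linarith
  have hB : 0 < 4 * b + 3 := by linarith
  have hbd : 0 ≤ (b - 1) * (d - 1) := mul_nonneg (by linarith) (by linarith)
  -- (a)
  have ha : (d + b - 1) ^ 2 ≤ (4 * b + 3) * G2 := by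
    refine le_trans ?_ hG
    have h1 : (b + 1) ^ 2 * 1 ≤ (b + 1) ^ 2 * d :=
      mul_le_mul_of_nonneg_left (by linarith) (by positivity)
    nlinarith
  -- (b)
  have hbz : -(4 * b + 2) * z ^ 2 + 4 * (d + b - 1) * z - 4 * G2 ≤ z ^ 2 := by
    have h1 : 0 ≤ (4 * b + 3) * (z ^ 2 - (-(4 * b + 2) * z ^ 2 + 4 * (d + b - 1) * z - 4 * G2)) := by
      have h2 : (4 * b + 3) * (z ^ 2 - (-(4 * b + 2) * z ^ 2 + 4 * (d + b - 1) * z - 4 * G2)) =
          ((4 * b + 3) * z - 2 * (d + b - 1)) ^ 2 +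
          4 * ((4 * b + 3) * G2 - (d + b - 1) ^ 2) := by ring
      rw [h2]
      have := sq_nonneg ((4 * b + 3) * z - 2 * (d + b - 1))
      linarith
    have := nonneg_of_mul_nonneg_right h1 hB
    linarith
  -- (c)
  have hG2big : 2 * (d + b - 1) < G2 := by
    have h1 : (4 * b + 3) * (2 * (d + b - 1)) < (4 * b + 3) * G2 := by
      refine lt_of_lt_of_le ?_ hG
      have h2 : (b + 1) * 1 ≤ (b + 1) * d := mul_le_mul_of_nonneg_left (by linarith) (by linarith)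
      have h3 : (b + 1) ^ 2 * 1 ≤ (b + 1) ^ 2 * d :=
        mul_le_mul_of_nonneg_left (by linarith) (by positivity)
      have h4 : (b + 1) * d ≤ (b + 1) ^ 2 * d :=
        mul_le_mul_of_nonneg_right (by linarith) (by linarith)
      have h5 : d ^ 2 = d * d := sq d
      nlinarith
    exact lt_of_mul_lt_mul_left h1 hB.le
  have hRnn : 0 ≤ -(4 * b + 2) * z ^ 2 + 4 * (d + b - 1) * z - 4 * G2 := by
    rw [← hR]; positivity
  have hz3 : 3 ≤ z := by
    by_contra hcon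
    have hz2 : z ≤ 2 := by linarith
    have h1 : (d + b - 1) * z ≤ (d + b - 1) * 2 := mul_le_mul_of_nonneg_left hz2 (by linarith)
    have h2 : 0 ≤ (4 * b + 2) * z ^ 2 := by
      have := sq_nonneg z
      have : 0 ≤ 4 * b + 2 := by linarith
      positivity
    linarith
  -- (d)
  have hbz1 : (b + 1) * z ≤ d := by
    by_contra hcon
    have ht : 0 < (b + 1) * z - d := by linarith
    set t := (b + 1) * z - d with htd
    have h1 : (b + 1) ^ 2 * (-(4 * b + 2) * z ^ 2 + 4 * (d + b - 1) * z - 4 * G2) =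
        (2 * d ^ 2 + 4 * (b ^ 2 - 1) * d - 4 * (b + 1) ^ 2 * G2) +
        t * (-4 * b * d + 4 * (b ^ 2 - 1)) - (4 * b + 2) * t ^ 2 := by
      rw [htd]; ring
    have h2 : 0 ≤ (b + 1) ^ 2 * (-(4 * b + 2) * z ^ 2 + 4 * (d + b - 1) * z - 4 * G2) := by
      positivity
    have h3 : (4 * b + 3) * (2 * d ^ 2 + 4 * (b ^ 2 - 1) * d) <
        (4 * b + 3) * (4 * (b + 1) ^ 2 * G2) := by
      have h4 : 4 * (b + 1) ^ 2 * (d ^ 2 + C * d + (4 * b + 3) * (d - 2)) ≤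
          4 * (b + 1) ^ 2 * ((4 * b + 3) * G2) := mul_le_mul_of_nonneg_left hG (by positivity)
      have h5 : (4 * b + 3) * (4 * (b + 1) ^ 2 * G2) = 4 * (b + 1) ^ 2 * ((4 * b + 3) * G2) := by
        ring
      rw [h5]
      refine lt_of_lt_of_le ?_ h4
      have h6 : 0 ≤ 4 * (b + 1) ^ 2 * ((4 * b + 3) * (d - 2)) := by
        have : 0 ≤ d - 2 := by linarith
        positivity
      have h7 : (4 * b + 3) * (4 * (b ^ 2 - 1) * d) ≤ 4 * (b + 1) ^ 2 * (C * d) := by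
        have h8 : (4 * b + 3) * (b ^ 2 - 1) ≤ (b + 1) ^ 2 * C := by
          have h9 : 4 * b + 3 ≤ C := by linarith
          have h10 : b ^ 2 - 1 ≤ (b + 1) ^ 2 := by linarith [sq_nonneg b]
          have h11 : 0 ≤ b ^ 2 - 1 := by linarith
          calc (4 * b + 3) * (b ^ 2 - 1) ≤ C * (b ^ 2 - 1) :=
                mul_le_mul_of_nonneg_right h9 h11
            _ ≤ C * (b + 1) ^ 2 := mul_le_mul_of_nonneg_left h10 (by linarith)
            _ = (b + 1) ^ 2 * C := by ring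
        have h12 := mul_le_mul_of_nonneg_right h8 (by linarith : 0 ≤ d)
        linarith
      have h13 : (4 * b + 3) * (2 * d ^ 2) < 4 * (b + 1) ^ 2 * d ^ 2 := by
        have h14 : (4 * b + 3) * 2 < 4 * (b + 1) ^ 2 := by linarith
        have h15 : 0 < d ^ 2 := by positivity
        have h16 := mul_lt_mul_of_pos_right h14 h15
        linarith
      linarith
    have h17 := lt_of_mul_lt_mul_left h3 hB.le
    have h18 : t * (-4 * b * d + 4 * (b ^ 2 - 1)) ≤ 0 := by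
      apply mul_nonpos_of_nonneg_of_nonpos ht.le
      have : b * (b + 1) ≤ b * d := mul_le_mul_of_nonneg_left (by linarith) (by linarith)
      linarith
    have h19 : 0 ≤ (4 * b + 2) * t ^ 2 := by
      have : 0 ≤ 4 * b + 2 := by linarith
      positivity
    linarith
  -- (e)
  have hsum : (w₁ + w₂) ^ 2 ≤ (2 * (d - (b + 1) * z)) ^ 2 := by
    have e1 : (w₁ + w₂) ^ 2 ≤ 2 * (w₁ ^ 2 + w₂ ^ 2) := by nlinarith [sq_nonneg (w₁ - w₂)]
    refine e1.trans ?_
    rw [hR]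
    -- the discriminant
    have hq : 0 < b ^ 2 + 4 * b + 2 := by linarith
    have hdisc : ((b + 2) * d + b - 1) ^ 2 ≤ (b ^ 2 + 4 * b + 2) * (d ^ 2 + 2 * G2) := by
      have h1 : (4 * b + 3) * ((b + 2) * d + b - 1) ^ 2 ≤
          (4 * b + 3) * ((b ^ 2 + 4 * b + 2) * (d ^ 2 + 2 * G2)) := by
        have h2 : (b ^ 2 + 4 * b + 2) * ((4 * b + 3) * d ^ 2 + 2 * (d ^ 2 + C * d +
            (4 * b + 3) * (d - 2))) ≤
            (b ^ 2 + 4 * b + 2) * ((4 * b + 3) * d ^ 2 + 2 * ((4 * b + 3) * G2)) :=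
          mul_le_mul_of_nonneg_left (by linarith) hq.le
        have h3 : (4 * b + 3) * ((b ^ 2 + 4 * b + 2) * (d ^ 2 + 2 * G2)) =
            (b ^ 2 + 4 * b + 2) * ((4 * b + 3) * d ^ 2 + 2 * ((4 * b + 3) * G2)) := by ring
        rw [h3]
        refine le_trans ?_ h2
        have h4 : (b ^ 2 + 4 * b + 2) * ((4 * b + 3) * d ^ 2 + 2 * (d ^ 2 + C * d +
            (4 * b + 3) * (d - 2))) - (4 * b + 3) * ((b + 2) * d + b - 1) ^ 2 =
            (2 * b ^ 2 - 2) * d ^ 2 + 2 * (b ^ 2 + 4 * b + 2) * (C * d)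
            + (4 * b + 3) * ((6 * b + 8) * d - (5 * b ^ 2 + 14 * b + 9)) := by ring
        have h5 : 0 ≤ (2 * b ^ 2 - 2) * d ^ 2 := by
          have : 0 ≤ 2 * b ^ 2 - 2 := by linarith
          positivity
        have h6 : 0 ≤ 2 * (b ^ 2 + 4 * b + 2) * (C * d)
            + (4 * b + 3) * ((6 * b + 8) * d - (5 * b ^ 2 + 14 * b + 9)) := by
          have h7 : (4 * b + 3) * (5 * b ^ 2 + 14 * b + 9) ≤ 2 * (b ^ 2 + 4 * b + 2) * (C * d) := by
            have h8 : 5 * b ^ 2 + 14 * b + 9 ≤ 5 * (b ^ 2 + 4 * b + 2) := by linarith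
            have h9 : (4 * b + 3) * 5 ≤ 2 * (C * d) := by
              have : C * 1 ≤ C * d := mul_le_mul_of_nonneg_left (by linarith) (by linarith)
              linarith
            calc (4 * b + 3) * (5 * b ^ 2 + 14 * b + 9)
                ≤ (4 * b + 3) * (5 * (b ^ 2 + 4 * b + 2)) :=
                  mul_le_mul_of_nonneg_left h8 hB.le
              _ = (b ^ 2 + 4 * b + 2) * ((4 * b + 3) * 5) := by ring
              _ ≤ (b ^ 2 + 4 * b + 2) * (2 * (C * d)) := mul_le_mul_of_nonneg_left h9 hq.le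
              _ = 2 * (b ^ 2 + 4 * b + 2) * (C * d) := by ring
          have h10 : 0 ≤ (4 * b + 3) * ((6 * b + 8) * d) := by
            have : 0 ≤ 6 * b + 8 := by linarith
            have : 0 ≤ d := by linarith
            positivity
          linarith
        linarith
      exact le_of_mul_le_mul_left h1 hB
    have h1 : 0 ≤ (b ^ 2 + 4 * b + 2) * ((2 * (d - (b + 1) * z)) ^ 2 -
        2 * (-(4 * b + 2) * z ^ 2 + 4 * (d + b - 1) * z - 4 * G2)) := by
      have h2 : (b ^ 2 + 4 * b + 2) * ((2 * (d - (b + 1) * z)) ^ 2 -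
        2 * (-(4 * b + 2) * z ^ 2 + 4 * (d + b - 1) * z - 4 * G2)) =
          4 * (((b ^ 2 + 4 * b + 2) * z - ((b + 2) * d + b - 1)) ^ 2 +
          ((b ^ 2 + 4 * b + 2) * (d ^ 2 + 2 * G2) - ((b + 2) * d + b - 1) ^ 2)) := by ring
      rw [h2]
      have := sq_nonneg ((b ^ 2 + 4 * b + 2) * z - ((b + 2) * d + b - 1))
      linarith
    have := nonneg_of_mul_nonneg_right h1 hq
    linarith
  refine ⟨hz3, ?_, ?_, hbz1, ?_, ?_⟩
  · exact abs_le_of_sq_le_sq (by nlinarith [sq_nonneg w₂]) (by linarith)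
  · exact abs_le_of_sq_le_sq (by nlinarith [sq_nonneg w₁]) (by linarith)
  · exact abs_le_of_sq_le_sq hsum (by linarith)
  · linarith

/-- **Existence on the exceptional level.** -/
theorem tern_exist (F : Facts) (n : ℕ) (h3 : n % 3 = 0) (h6 : 6 ≤ n) :
    ∃ C : ℕ, ∀ d ≥ C, ∀ g, d ^ 2 + C * d ≤ 2 * thr n * g → Tern (n / 3 - 1) d g → G n d g := by
  obtain ⟨b, hb, rfl⟩ : ∃ b : ℕ, 1 ≤ b ∧ n = 3 * b + 3 := ⟨n / 3 - 1, by omega, by omega⟩
  have hn3 : (3 * b + 3) / 3 - 1 = b := by omega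
  have hthr : thr (3 * b + 3) = 4 * b + 3 := by unfold thr; omega
  refine ⟨20 * (b + 1) ^ 2, fun d hd g hg hT => ?_⟩
  rw [hn3] at hT
  rw [hthr] at hg
  obtain ⟨z, x, m₁, m₂, hx, hR⟩ := hT
  have hb' : (1 : ℤ) ≤ b := by exact_mod_cast hb
  have hd' : (20 * ((b : ℤ) + 1) ^ 2) ≤ d := by exact_mod_cast hd
  have hg' : (d : ℤ) ^ 2 + (20 * ((b : ℤ) + 1) ^ 2) * d ≤ 2 * (4 * (b : ℤ) + 3) * g := by
    exact_mod_cast hg
  obtain ⟨hz3, hw1, hw2, hbz, hw12, hg2⟩ :=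
    tern_ineq b d g z (z - 2 * m₁) (z - 2 * m₂) _ hb' le_rfl hd' hg' hR
  rw [abs_le] at hw1 hw2 hw12
  -- the coefficients
  have a1 : 0 ≤ m₁ := by linarith [hw1.2]
  have a2 : 0 ≤ m₂ := by linarith [hw2.2]
  have a3 : m₁ ≤ z := by linarith [hw1.1]
  have a4 : m₂ ≤ z := by linarith [hw2.1]
  have a5 : z ≤ x := by
    have := hw12.2
    have h4 : 4 * (x - z) = 2 * (d - (b + 1) * z) - (z - 2 * m₁ + (z - 2 * m₂)) := by
      linear_combination 2 * hx
    linarith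
  have a6 : m₁ + m₂ ≤ x := by
    have := hw12.1
    have h4 : 4 * (x - m₁ - m₂) = 2 * (d - (b + 1) * z) + (z - 2 * m₁ + (z - 2 * m₂)) := by
      linear_combination 2 * hx
    linarith
  have hexc : ∀ e, IsExc e → 0 ≤ ip (ccls 2 x (x - z) ![m₁, m₂]) e := by
    intro e he
    rcases he with ⟨i, rfl⟩ | ⟨i, j, hij, rfl⟩ | ⟨T, hT, rfl⟩
    · fin_cases i <;> simp [ip, ccls] <;> linarith
    · fin_cases i <;> fin_cases j <;>
        simp [ip, ccls, Fin.sum_univ_succ] at hij ⊢ <;> linarith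
    · have := Finset.card_le_univ T
      rw [hT, Fintype.card_fin] at this
      omega
  have hcc : ip (ccls 2 x (x - z) ![m₁, m₂]) (ccls 2 x (x - z) ![m₁, m₂]) =
      x ^ 2 - (x - z) ^ 2 - m₁ ^ 2 - m₂ ^ 2 := by
    simp [ip, ccls, Fin.sum_univ_succ]
    ring
  have hgen : x ^ 2 - (x - z) ^ 2 - m₁ ^ 2 - m₂ ^ 2 = 2 * g - 2 + d - (b - 1) * z := by
    have hd2 : (d : ℤ) = b * z + 2 * x - (m₁ + m₂) := by linarith
    have h4 : 4 * (x ^ 2 - (x - z) ^ 2 - m₁ ^ 2 - m₂ ^ 2) =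
        4 * (2 * g - 2 + d - (b - 1) * z) := by
      rw [hd2] at hR ⊢
      linarith
    linarith
  have hpos : 0 < ip (ccls 2 x (x - z) ![m₁, m₂]) (ccls 2 x (x - z) ![m₁, m₂]) := by
    rw [hcc, hgen]
    have : ((b : ℤ) - 1) * z ≤ d := by nlinarith
    linarith
  refine F.delPezzo 3 (by norm_num) (by norm_num) (hcls 2 b) (ccls 2 x (x - z) ![m₁, m₂])
    (h_pos 2 b hb') hexc hpos ⟨0, ?_⟩ (3 * b + 3) d g ?_ ?_ ?_
  · simp [ip, hcls, ccls, Matrix.vecHead]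
    linarith
  · simp [ip, hcls, can, Fin.sum_univ_succ, Fin.cons]
    ring
  · simp [ip, hcls, ccls, Fin.sum_univ_succ, Fin.cons]
    linarith
  · rw [hcc, hgen]
    simp [ip, ccls, can, Fin.sum_univ_succ]
    linarith

end Pool.Agent.H82.GN
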